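import Pool.Agent.Helper68.LM2.St

/-!
# Project LM2, module HLP: the part dominated by iterated maximal functions
-/

set_option autoImplicit false

open MeasureTheory Set Filter Topology
open scoped ENNReal RealInnerProductSpace

namespace Pool.Agent.Helper94.LM2

open Pool.Agent.Helper68.LM2 Pool.Agent.Helper68.LM

private theorem sub_le (f : ℝ → ℝ≥0∞) (hf : Measurable f) (c : ℝ) (hc : c ≠ 0) (d a u v R : ℝ)
    (h : ∀ t ∈ Icc u v, d + c * t - a ∈ Icc (-R) R) :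
    ∫⁻ t in Icc u v, f (d + c * t) ≤
      ENNReal.ofReal |c⁻¹| * ∫⁻ r in Icc (-R) R, f (a + r) := by
  set Φ : ℝ → ℝ≥0∞ := (Icc (-R) R).indicator (fun r => f (a + r)) with hΦ
  have hΦm : Measurable Φ := (hf.comp (measurable_const_add a)).indicator measurableSet_Icc
  have h1 : ∫⁻ t in Icc u v, f (d + c * t) ≤ ∫⁻ t, Φ (c * t + (d - a)) := by
    rw [← lintegral_indicator measurableSet_Icc]
    apply lintegral_mono
    intro t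
    by_cases ht : t ∈ Icc u v
    · rw [indicator_of_mem ht, hΦ]
      have h2 : c * t + (d - a) ∈ Icc (-R) R := by
        have := h t ht
        rwa [show c * t + (d - a) = d + c * t - a by ring]
      simp only []
      rw [indicator_of_mem h2, show a + (c * t + (d - a)) = d + c * t by ring]
    · rw [indicator_of_notMem ht]
      exact bot_le
  refine h1.trans ?_
  have h3 : ∫⁻ t, Φ (c * t + (d - a)) = ENNReal.ofReal |c⁻¹| * ∫⁻ r, Φ (r + (d - a)) := by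
    have h4 : Measurable (fun r => Φ (r + (d - a))) := hΦm.comp (measurable_add_const _)
    have h5 := lintegral_map h4 (measurable_const_mul c) (μ := (volume : Measure ℝ))
    rw [Real.map_volume_mul_left hc, lintegral_smul_measure] at h5
    rw [← h5]
    rfl
  rw [h3, lintegral_add_right_eq_self (fun r => Φ r) (d - a), hΦ, lintegral_indicator measurableSet_Icc]

private theorem Mx_ge (h : ℝ → ℝ≥0∞) (x : ℝ) (j : ℤ) :
    ENNReal.ofReal ((2 : ℝ) ^ (-j)) * ∫⁻ s in Icc (-((2 : ℝ) ^ j)) ((2 : ℝ) ^ j), h (x + s) ≤ Mx h x :=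
  le_iSup (fun i : ℤ => ENNReal.ofReal ((2 : ℝ) ^ (-i)) *
    ∫⁻ s in Icc (-((2 : ℝ) ^ i)) ((2 : ℝ) ^ i), h (x + s)) j

private theorem int_le_Mx (h : ℝ → ℝ≥0∞) (x : ℝ) (j : ℤ) :
    ∫⁻ s in Icc (-((2 : ℝ) ^ j)) ((2 : ℝ) ^ j), h (x + s) ≤ ENNReal.ofReal ((2 : ℝ) ^ j) * Mx h x := by
  have h1 := mul_le_mul_right (Mx_ge h x j) (ENNReal.ofReal ((2 : ℝ) ^ j))
  rw [← mul_assoc, ← ENNReal.ofReal_mul (by positivity), ← zpow_add₀ (by norm_num), add_neg_cancel,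
    zpow_zero, ENNReal.ofReal_one, one_mul] at h1
  exact h1

/-- the inner integral -/
private theorem rho_le (τ : ℕ → ℝ) (m₀ n : ℕ) (k : ℤ) (W : ℝ → ℝ≥0∞) (hW : Measurable W)
    (x : ℝ) :
    ∫⁻ s, W (x - (2 : ℝ) ^ k * s) ∂(rho τ m₀ n) ≤
      ∫⁻ t in Ioc (τ (n + 1)) (τ n), Mx W (x - (2 : ℝ) ^ k * t) := by
  have hf : Measurable (fun w : ℝ × ℝ => w.1 + (2⁻¹ : ℝ) ^ (m₀ + n) * w.2) := by fun_prop
  have hg : Measurable (fun s : ℝ => W (x - (2 : ℝ) ^ k * s)) := hW.comp (by fun_prop)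
  have hgf : Measurable (fun w : ℝ × ℝ => W (x - (2 : ℝ) ^ k * (w.1 + (2⁻¹ : ℝ) ^ (m₀ + n) * w.2))) :=
    hg.comp hf
  unfold rho
  rw [lintegral_map hg hf, lintegral_prod _ hgf.aemeasurable,
    Measure.restrict_congr_set (Ioc_ae_eq_Icc (μ := volume)).symm]
  apply lintegral_mono
  intro t
  set j : ℤ := k - (m₀ : ℤ) - (n : ℤ) with hj
  have hη : (2 : ℝ) ^ k * (2⁻¹ : ℝ) ^ (m₀ + n) = (2 : ℝ) ^ j := by
    rw [inv_pow, ← zpow_natCast, ← zpow_neg, ← zpow_add₀ (by norm_num)]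
    congr 1
    push_cast
    omega
  have hpos : (0 : ℝ) < (2 : ℝ) ^ j := by positivity
  have h1 := sub_le W hW (-((2 : ℝ) ^ j)) (by linarith) (x - (2 : ℝ) ^ k * t)
    (x - (2 : ℝ) ^ k * t) (-1) 1 ((2 : ℝ) ^ j) (by
      intro α hα
      rw [mem_Icc] at hα ⊢
      constructor <;> nlinarith [hα.1, hα.2])
  have h2 : |(-((2 : ℝ) ^ j))⁻¹| = (2 : ℝ) ^ (-j) := by
    rw [abs_inv, abs_neg, abs_of_pos hpos, zpow_neg]
  rw [h2] at h1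
  refine le_trans (le_of_eq ?_) (h1.trans (Mx_ge W _ j))
  apply lintegral_congr
  intro α
  congr 1
  rw [← hη]
  ring

private theorem sum_le (τ : ℕ → ℝ) (hτ : StrictAnti τ) (F : ℝ → ℝ≥0∞) (N : ℕ) :
    ∑ n ∈ Finset.range N, ∫⁻ t in Ioc (τ (n + 1)) (τ n), F t = ∫⁻ t in Ioc (τ N) (τ 0), F t := by
  induction N with
  | zero => simp
  | succ N ih =>
    rw [Finset.sum_range_succ, ih]
    have h1 : τ (N + 1) ≤ τ N := hτ.antitone (Nat.le_succ N)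
    have h2 : τ N ≤ τ 0 := hτ.antitone (Nat.zero_le N)
    rw [← Ioc_union_Ioc_eq_Ioc h1 h2, lintegral_union measurableSet_Ioc, add_comm]
    rw [Set.disjoint_left]
    intro t ht ht'
    exact absurd ht'.1 (not_lt.mpr ht.2)

private theorem E2_le (hEA : StEA) (m₀ i : ℕ) (ϖ : ℝ) (hi : ϖ + 4 ≤ (2 : ℝ) ^ i) (k : ℤ)
    (g : ℝ × ℝ → ℝ) (hg : Measurable g) (a b y : ℝ) (hy : |y| ≤ ϖ) :
    ‖E2 (k - (m₀ : ℤ) + 2) g (a, b - (2 : ℝ) ^ k * y)‖ₑ ≤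
      ENNReal.ofReal ((2 : ℝ) ^ (m₀ + i : ℕ)) * M2 (fun w => ‖g w‖ₑ) (a, b) := by
  set m : ℤ := k - (m₀ : ℤ) + 2 with hm
  have hkpos : (0 : ℝ) < (2 : ℝ) ^ k := by positivity
  have hmk : (2 : ℝ) ^ m ≤ 4 * (2 : ℝ) ^ k := by
    have : (4 : ℝ) * (2 : ℝ) ^ k = (2 : ℝ) ^ (k + 2) := by
      rw [zpow_add₀ (by norm_num)]; norm_num; ring
    rw [this]
    exact zpow_le_zpow_right₀ (by norm_num) (by omega)
  unfold E2 E1
  obtain ⟨-, hc, -⟩ := hEA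
  obtain ⟨-, -, -, hsub⟩ := hc m (b - (2 : ℝ) ^ k * y)
  rw [enorm_mul]
  have h1 : ‖∫ z in cell m (b - (2 : ℝ) ^ k * y), g (a, z)‖ₑ ≤
      ∫⁻ z in Icc (b - (2 : ℝ) ^ k * y - (2 : ℝ) ^ m) (b - (2 : ℝ) ^ k * y + (2 : ℝ) ^ m), ‖g (a, z)‖ₑ :=
    (enorm_integral_le_lintegral_enorm _).trans (lintegral_mono_set hsub)
  have hgm : Measurable (fun z => ‖g (a, z)‖ₑ) := (hg.comp (by fun_prop)).enorm
  have hR : (2 : ℝ) ^ (k + (i : ℤ)) = (2 : ℝ) ^ k * (2 : ℝ) ^ i := by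
    rw [zpow_add₀ (by norm_num), zpow_natCast]
  have h2 := sub_le _ hgm 1 one_ne_zero 0 b (b - (2 : ℝ) ^ k * y - (2 : ℝ) ^ m)
    (b - (2 : ℝ) ^ k * y + (2 : ℝ) ^ m) ((2 : ℝ) ^ (k + (i : ℤ))) (by
      intro t ht
      rw [mem_Icc] at ht ⊢
      have h3 := abs_le.1 hy
      have h4 : (2 : ℝ) ^ k * y ≤ (2 : ℝ) ^ k * ϖ := mul_le_mul_of_nonneg_left h3.2 hkpos.le
      have h5 : -((2 : ℝ) ^ k * ϖ) ≤ (2 : ℝ) ^ k * y := by
        have := mul_le_mul_of_nonneg_left h3.1 hkpos.le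
        linarith
      have h6 : (2 : ℝ) ^ k * (ϖ + 4) ≤ (2 : ℝ) ^ k * (2 : ℝ) ^ i := mul_le_mul_of_nonneg_left hi hkpos.le
      rw [hR]
      constructor <;> linarith [ht.1, ht.2])
  simp only [zero_add, one_mul, inv_one, abs_one, ENNReal.ofReal_one] at h2
  have h7 := h1.trans (h2.trans (int_le_Mx (fun z => ‖g (a, z)‖ₑ) b (k + (i : ℤ))))
  have h8 : ‖((2 : ℝ) ^ m)⁻¹‖ₑ = ENNReal.ofReal ((2 : ℝ) ^ (-m)) := by
    rw [Real.enorm_eq_ofReal (by positivity), zpow_neg]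
  rw [h8]
  refine (mul_le_mul_right h7 _).trans ?_
  rw [← mul_assoc, ← ENNReal.ofReal_mul (by positivity), ← zpow_add₀ (by norm_num)]
  refine mul_le_mul_left (ENNReal.ofReal_le_ofReal ?_) _
  rw [← zpow_natCast]
  exact zpow_le_zpow_right₀ (by norm_num) (by push_cast; omega)

/-- the pointwise bound -/
private theorem pointwise (hEA : StEA) (m₀ i : ℕ) (ϖ : ℝ) (hi : ϖ + 4 ≤ (2 : ℝ) ^ i)
    (hMx : ∀ h : ℝ → ℝ≥0∞, Measurable h → Measurable (Mx h))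
    (hM : ∀ g : ℝ × ℝ → ℝ≥0∞, Measurable g → Measurable (M1 g) ∧ Measurable (M2 g))
    (τ : ℕ → ℝ) (hτ : Seq τ m₀) (Nm : ℕ) (g : ℝ × ℝ → ℝ) (P : ℝ × ℝ) (hg : BR g) (hP : ‖P‖ ≤ ϖ)
    (k : ℤ) (z : ℝ × ℝ) :
    ‖∑ n ∈ Finset.range Nm,
        Rh (rho τ m₀ n) k (E2 (k - (m₀ : ℤ) + 2) g) (z - (2 : ℝ) ^ k • P)‖ₑ ≤
      ENNReal.ofReal ((2 : ℝ) ^ (m₀ + i : ℕ)) * (ENNReal.ofReal ((2 : ℝ) ^ i) *
        M1 (M1 (M2 (fun w => ‖g w‖ₑ))) z) := by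
  obtain ⟨a, b⟩ := z
  have hP1 : |P.1| ≤ ϖ := (norm_fst_le P).trans hP
  have hP2 : |P.2| ≤ ϖ := (norm_snd_le P).trans hP
  have hgm : Measurable g := hg.1
  have hM2 : Measurable (M2 (fun w => ‖g w‖ₑ)) := (hM _ hgm.enorm).2
  set W : ℝ → ℝ≥0∞ := fun a' => M2 (fun w => ‖g w‖ₑ) (a', b) with hW
  have hWm : Measurable W := hM2.comp (by fun_prop)
  set K : ℝ≥0∞ := ENNReal.ofReal ((2 : ℝ) ^ (m₀ + i : ℕ)) with hK
  have hkpos : (0 : ℝ) < (2 : ℝ) ^ k := by positivity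
  set x : ℝ := a - (2 : ℝ) ^ k * P.1 with hx
  have h1 : ∀ n, ‖Rh (rho τ m₀ n) k (E2 (k - (m₀ : ℤ) + 2) g) ((a, b) - (2 : ℝ) ^ k • P)‖ₑ ≤
      K * ∫⁻ t in Ioc (τ (n + 1)) (τ n), Mx W (x - (2 : ℝ) ^ k * t) := by
    intro n
    unfold Rh
    refine (enorm_integral_le_lintegral_enorm _).trans ?_
    have h2 : ∫⁻ s, ‖E2 (k - (m₀ : ℤ) + 2) g
          (((a, b) - (2 : ℝ) ^ k • P).1 - (2 : ℝ) ^ k * s, ((a, b) - (2 : ℝ) ^ k • P).2)‖ₑ ∂(rho τ m₀ n) ≤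
        ∫⁻ s, K * W (x - (2 : ℝ) ^ k * s) ∂(rho τ m₀ n) := by
      apply lintegral_mono
      intro s
      exact E2_le hEA m₀ i ϖ hi k g hgm (x - (2 : ℝ) ^ k * s) b P.2 hP2
    refine h2.trans ?_
    have hWx : Measurable (fun s : ℝ => W (x - (2 : ℝ) ^ k * s)) := hWm.comp (by fun_prop)
    rw [lintegral_const_mul _ hWx]
    exact mul_le_mul_right (rho_le τ m₀ n k W hWm x) K
  have h3 : ‖∑ n ∈ Finset.range Nm,
        Rh (rho τ m₀ n) k (E2 (k - (m₀ : ℤ) + 2) g) ((a, b) - (2 : ℝ) ^ k • P)‖ₑ ≤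
      ∑ n ∈ Finset.range Nm, K * ∫⁻ t in Ioc (τ (n + 1)) (τ n), Mx W (x - (2 : ℝ) ^ k * t) :=
    (enorm_sum_le _ _).trans (Finset.sum_le_sum fun n _ => h1 n)
  rw [← Finset.mul_sum, sum_le τ hτ.1] at h3
  refine h3.trans (mul_le_mul_right ?_ K)
  have h4 : ∫⁻ t in Ioc (τ Nm) (τ 0), Mx W (x - (2 : ℝ) ^ k * t) ≤
      ∫⁻ t in Icc (0 : ℝ) 1, Mx W (x + -((2 : ℝ) ^ k) * t) := by
    have h5 : Ioc (τ Nm) (τ 0) ⊆ Icc (0 : ℝ) 1 := by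
      intro t ht
      exact ⟨((hτ.2.1 Nm).trans ht.1).le, ht.2.trans hτ.2.2.1⟩
    refine (lintegral_mono_set h5).trans (le_of_eq ?_)
    apply lintegral_congr
    intro t
    congr 1
    ring
  have hR : (2 : ℝ) ^ (k + (i : ℤ)) = (2 : ℝ) ^ k * (2 : ℝ) ^ i := by
    rw [zpow_add₀ (by norm_num), zpow_natCast]
  have h6 := sub_le (Mx W) (hMx W hWm) (-((2 : ℝ) ^ k)) (by linarith) x a 0 1
    ((2 : ℝ) ^ (k + (i : ℤ))) (by
      intro t ht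
      rw [mem_Icc] at ht ⊢
      have h3 := abs_le.1 hP1
      have h4 : (2 : ℝ) ^ k * P.1 ≤ (2 : ℝ) ^ k * ϖ := mul_le_mul_of_nonneg_left h3.2 hkpos.le
      have h5 : -((2 : ℝ) ^ k * ϖ) ≤ (2 : ℝ) ^ k * P.1 := by
        have := mul_le_mul_of_nonneg_left h3.1 hkpos.le
        linarith
      have h6 : (2 : ℝ) ^ k * (ϖ + 4) ≤ (2 : ℝ) ^ k * (2 : ℝ) ^ i := mul_le_mul_of_nonneg_left hi hkpos.le
      have h7 : 0 ≤ (2 : ℝ) ^ k * t := mul_nonneg hkpos.le ht.1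
      have h8 : (2 : ℝ) ^ k * t ≤ (2 : ℝ) ^ k * 1 := mul_le_mul_of_nonneg_left ht.2 hkpos.le
      rw [hR, hx]
      constructor <;> linarith)
  have h7 : |(-((2 : ℝ) ^ k))⁻¹| = (2 : ℝ) ^ (-k) := by
    rw [abs_inv, abs_neg, abs_of_pos hkpos, zpow_neg]
  rw [h7] at h6
  refine h4.trans (h6.trans ((mul_le_mul_right (int_le_Mx (Mx W) a (k + (i : ℤ))) _).trans ?_))
  rw [← mul_assoc, ← ENNReal.ofReal_mul (by positivity), ← zpow_add₀ (by norm_num),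
    show -k + (k + (i : ℤ)) = (i : ℤ) by ring, zpow_natCast]
  exact le_of_eq rfl

theorem hHLP (hEA : StEA) (_hEB : StEB) (_hRHO : StRHO) (hHLA : StHLA) : StHLP := by
  intro p ϖ m₀ hp hϖ
  obtain ⟨i, hi⟩ := pow_unbounded_of_one_lt (ϖ + 4) (one_lt_two (α := ℝ))
  obtain ⟨C₀, hC₀, hA, hB⟩ := hHLA p hp
  have hMx : ∀ h : ℝ → ℝ≥0∞, Measurable h → Measurable (Mx h) := fun h hh => (hA h hh).1
  have hM : ∀ g : ℝ × ℝ → ℝ≥0∞, Measurable g → Measurable (M1 g) ∧ Measurable (M2 g) :=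
    fun g hg => ⟨(hB g hg).1, (hB g hg).2.1⟩
  refine ⟨((2 : ℝ) ^ (m₀ + i : ℕ) * (2 : ℝ) ^ i) ^ p * (C₀ * (C₀ * C₀)), by positivity, ?_⟩
  intro τ hτ Nm g P hg hP
  set G : ℝ × ℝ → ℝ≥0∞ := fun w => ‖g w‖ₑ with hG
  have hGm : Measurable G := hg.1.enorm
  have m2 := (hM G hGm).2
  have m12 := (hM _ m2).1
  have m112 := (hM _ m12).1
  set K : ℝ≥0∞ := ENNReal.ofReal ((2 : ℝ) ^ (m₀ + i : ℕ) * (2 : ℝ) ^ i) with hK
  have h1 : ∀ z : ℝ × ℝ, (⨆ k : ℤ, ‖∑ n ∈ Finset.range Nm,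
        Rh (rho τ m₀ n) k (E2 (k - (m₀ : ℤ) + 2) g) (z - (2 : ℝ) ^ k • P)‖ₑ) ≤
      K * M1 (M1 (M2 G)) z := by
    intro z
    refine iSup_le fun k => ?_
    have h2 := pointwise hEA m₀ i ϖ hi.le hMx hM τ hτ Nm g P hg hP k z
    rwa [← mul_assoc, ← ENNReal.ofReal_mul (by positivity)] at h2
  have h3 : ∫⁻ z, (⨆ k : ℤ, ‖∑ n ∈ Finset.range Nm,
        Rh (rho τ m₀ n) k (E2 (k - (m₀ : ℤ) + 2) g) (z - (2 : ℝ) ^ k • P)‖ₑ) ^ p ≤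
      ∫⁻ z, K ^ p * M1 (M1 (M2 G)) z ^ p := by
    apply lintegral_mono
    intro z
    have h5 := ENNReal.rpow_le_rpow (h1 z) (show (0 : ℝ) ≤ p by linarith)
    rwa [ENNReal.mul_rpow_of_nonneg _ _ (show (0 : ℝ) ≤ p by linarith)] at h5
  refine h3.trans ?_
  rw [lintegral_const_mul _ (m112.pow_const p)]
  have h4 : ∫⁻ z, M1 (M1 (M2 G)) z ^ p ≤
      ENNReal.ofReal C₀ * (ENNReal.ofReal C₀ * (ENNReal.ofReal C₀ * ∫⁻ z, G z ^ p)) :=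
    ((hB _ m12).2.2.1).trans (mul_le_mul_right (((hB _ m2).2.2.1).trans
      (mul_le_mul_right ((hB G hGm).2.2.2) _)) _)
  refine (mul_le_mul_right h4 _).trans (le_of_eq ?_)
  rw [ENNReal.ofReal_mul (by positivity), ENNReal.ofReal_mul hC₀.le, ENNReal.ofReal_mul hC₀.le,
    ← ENNReal.ofReal_rpow_of_pos (by positivity)]
  ring

end Pool.Agent.Helper94.LM2
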